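import Mathlib
import Pool.Agent.H776R2.Om.Defs

set_option autoImplicit false

namespace Pool.Agent.H776R2.Om

open Pool.Agent.Results.MP_03d093_al.SphereBall Pool.Agent.H776R2.Grig

theorem normal_formo (η : Om) (α : V → ℝ) (hα : Tri α) (w : List Lt) :
    ∃ (e e' : Bool) (v : List V),
    evo η w = pa e * evo η (U v) * pa e' ∧ v.length ≤ w.length ∧ Kwo α (U v) ≤ Kwo α w ∧
    (∀ y z : V, y ≠ z → (Even (v.count y + v.count z) ↔ Even (w.count y.lt + w.count z.lt))) ∧
    (Even (v.length + e.toNat + e'.toNat) ↔ Even (w.count Lt.A)) := sorry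

theorem specialo (ω : Om) (s : ℕ) : ∃ S : ℕ, ∀ (h : List Bool → Bool) (m : ℕ),
    ω (m + s) ≠ ω (m + s + 1) → ∃ w : List Lt, w.length ≤ S * ell ω m ∧
      Lab (m + s + 2) (fun u => h ((u.drop m).take (s + 1))) (evo ω w) := sorry

end Pool.Agent.H776R2.Om
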